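import Pool.Agent.U682.FT.Main
import Pool.Agent.U427.FTG.Exist

/-!
# `F_4(X)` is a `k_R`-space for metrizable `X` with compact derived set

The free topological group is taken in the sense of Markov and is given by its universal property:
`IsFreeTopologicalGroup i` says that the map `i : X → F` into a Hausdorff topological group is a
topological embedding, that its image generates `F` algebraically as a free group on `X`, and that
every continuous map from `X` to a Hausdorff topological group extends to a continuous
homomorphism. Its existence for metrizable `X` is proved too.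
-/

set_option autoImplicit false

namespace Pool.Agent.Results.MP_b47bfe_gt.KRProperty

open Topology Filter

/-- A `k_R`-space: a Tychonoff space such that every real function whose restrictions to the
compact subsets are continuous is continuous. -/
def IsKRSpace (Y : Type) [TopologicalSpace Y] : Prop :=
  T35Space Y ∧ ∀ f : Y → ℝ, (∀ K : Set Y, IsCompact K → ContinuousOn f K) → Continuous f

/-- `i : X → F` makes the topological group `F` the free topological group of `X` in the sense of
Markov: `i` is a topological embedding, `F` is the free group on the image, and every continuous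
map from `X` to a Hausdorff topological group extends to a continuous homomorphism (which is
unique, as the image generates `F`). -/
structure IsFreeTopologicalGroup {X F : Type} [TopologicalSpace X] [Group F]
    [TopologicalSpace F] (i : X → F) : Prop where
  embedding : IsEmbedding i
  free : Function.Bijective (FreeGroup.lift i)
  extends_continuous : ∀ (G : Type) [Group G] [TopologicalSpace G] [IsTopologicalGroup G]
    [T2Space G] (f : X → G), Continuous f → ∃ φ : F →* G, Continuous φ ∧ ∀ x, φ (i x) = f x

/-- The set of elements of length at most `n`: products `x₁^{ε₁} ⋯ x_m^{ε_m}` with `m ≤ n`,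
`ε_j = ± 1`, in which no two neighbouring factors cancel. -/
def lengthLE {X F : Type} [Group F] (i : X → F) (n : ℕ) : Set F :=
  {g | ∃ L : List (X × Bool), FreeGroup.IsReduced L ∧ L.length ≤ n ∧
    (L.map fun p => if p.2 then i p.1 else (i p.1)⁻¹).prod = g}

/-- the topology of a Fréchet–Urysohn space is determined by real functions on compact sets -/
theorem kr_of_frechet {Y : Type} [TopologicalSpace Y] [FrechetUrysohnSpace Y] (f : Y → ℝ)
    (hf : ∀ K : Set Y, IsCompact K → ContinuousOn f K) : Continuous f := by
  refine SeqContinuous.continuous ?_
  intro u a hu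
  have hK : IsCompact (insert a (Set.range u)) := hu.isCompact_insert_range
  have h1 := (hf _ hK) a (Set.mem_insert _ _)
  have h2 : Tendsto u atTop (𝓝[insert a (Set.range u)] a) := by
    rw [tendsto_nhdsWithin_iff]
    exact ⟨hu, Eventually.of_forall fun n => Set.mem_insert_of_mem _ ⟨n, rfl⟩⟩
  exact h1.tendsto.comp h2

theorem lift_mk {X F : Type} [Group F] (i : X → F) (L : List (X × Bool)) :
    FreeGroup.lift i (FreeGroup.mk L) =
      (L.map fun p => if p.2 then i p.1 else (i p.1)⁻¹).prod := by
  rw [FreeGroup.lift_mk]
  congr 1
  apply List.map_congr_left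
  rintro ⟨x, b⟩ _
  cases b <;> rfl

open scoped Pool.Agent.U682.FT in
/-- the part of the free group with the Markov topology of length at most four -/
theorem frechet_of_inducing {X F : Type} [TopologicalSpace X] [TopologicalSpace.MetrizableSpace X]
    (hX : IsCompact {x : X | ¬ IsOpen ({x} : Set X)}) [Group F] [TopologicalSpace F] (i : X → F)
    (e : FreeGroup X ≃ₜ F) (he : ∀ w, e w = FreeGroup.lift i w) :
    FrechetUrysohnSpace (lengthLE i 4) := by
  classical
  refine ⟨fun s a ha => ?_⟩
  have h1 : (a : F) ∈ closure ((↑) '' s : Set F) := closure_subtype.1 ha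
  have h2 : e.symm (a : F) ∈ closure (e ⁻¹' ((↑) '' s : Set F)) := by
    rw [← e.preimage_closure]
    simpa using h1
  obtain ⟨u, hu, hul⟩ := Pool.Agent.U682.FT.main hX _ (by
    rintro w ⟨⟨g, L, hred, hL, hg⟩, _, hw⟩
    have h3 : FreeGroup.mk L = w := by
      apply e.injective
      rw [he, lift_mk, hg]
      exact hw
    rw [← h3]
    exact (FreeGroup.norm_mk_le (L₁ := L)).trans hL) _ h2
  choose v hv hvu using hu
  refine ⟨v, hv, ?_⟩
  rw [tendsto_subtype_rng]
  simp only [hvu]
  have h4 : Tendsto (fun n => e (u n)) atTop (𝓝 (e (e.symm (a : F)))) :=
    (e.continuous.tendsto _).comp hul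
  rwa [e.apply_symm_apply] at h4

theorem t35_of_t2 {F : Type} [Group F] [TopologicalSpace F] [IsTopologicalGroup F] [T2Space F]
    (S : Set F) : T35Space S := by
  let _ : UniformSpace F := IsTopologicalGroup.rightUniformSpace F
  have : T35Space F := {}
  infer_instance

open scoped Pool.Agent.U682.FT in
theorem kr_four {X : Type} [TopologicalSpace X] [TopologicalSpace.MetrizableSpace X]
    (hX : IsCompact {x : X | ¬ IsOpen ({x} : Set X)})
    {F : Type} [Group F] [TopologicalSpace F] [IsTopologicalGroup F] [T2Space F] (i : X → F)
    (hi : IsFreeTopologicalGroup i) : IsKRSpace (lengthLE i 4) := by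
  have hcl : Continuous (FreeGroup.lift i) :=
    Pool.Agent.U682.FT.continuous_lift hi.embedding.continuous
  have : T2Space (FreeGroup X) := Pool.Agent.U427.FTG.t2
  obtain ⟨φ, hφ, hφi⟩ := hi.extends_continuous (FreeGroup X) FreeGroup.of
    Pool.Agent.U682.FT.continuous_of
  have hφ1 : ∀ w, φ (FreeGroup.lift i w) = w := by
    intro w
    have : (φ.comp (FreeGroup.lift i)) = MonoidHom.id _ := by
      ext x
      simp [hφi]
    exact DFunLike.congr_fun this w
  have hφ2 : ∀ g, FreeGroup.lift i (φ g) = g := by
    intro g
    obtain ⟨w, rfl⟩ := hi.free.2 g
    rw [hφ1]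
  let e : FreeGroup X ≃ₜ F :=
    { toFun := FreeGroup.lift i
      invFun := φ
      left_inv := hφ1
      right_inv := hφ2
      continuous_toFun := hcl
      continuous_invFun := hφ }
  have := frechet_of_inducing hX i e (fun w => rfl)
  exact ⟨t35_of_t2 _, kr_of_frechet⟩

open scoped Pool.Agent.U682.FT in
/-- the free group with the finest group topology for which the space maps continuously -/
theorem isFree_of {X : Type} [TopologicalSpace X] [TopologicalSpace.MetrizableSpace X] :
    IsFreeTopologicalGroup (FreeGroup.of : X → FreeGroup X) where
  embedding := Pool.Agent.U427.FTG.embedding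
  free := by
    have h : FreeGroup.lift (FreeGroup.of : X → FreeGroup X) = MonoidHom.id _ := by
      ext x
      simp
    rw [h]
    exact Function.bijective_id
  extends_continuous := fun G _ _ _ _ f hf =>
    ⟨FreeGroup.lift f, Pool.Agent.U682.FT.continuous_lift hf, fun x => by simp⟩

/-- **`F_4(X)` is a `k_R`-space for every metrizable space `X` whose set of non-isolated points is
compact.** The space `X` has a free topological group in the sense of Markov (a Hausdorff group),
and for each free topological group `F` of `X` the subspace of the elements of length at most four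
is a `k_R`-space. -/
theorem result (X : Type) [TopologicalSpace X] [TopologicalSpace.MetrizableSpace X]
    (hX : IsCompact {x : X | ¬ IsOpen ({x} : Set X)}) :
    (∃ (F : Type) (_ : Group F) (_ : TopologicalSpace F) (_ : IsTopologicalGroup F)
      (_ : T2Space F) (i : X → F), IsFreeTopologicalGroup i) ∧
    ∀ (F : Type) [Group F] [TopologicalSpace F] [IsTopologicalGroup F] [T2Space F] (i : X → F),
      IsFreeTopologicalGroup i → IsKRSpace (lengthLE i 4) := by
  exact ⟨⟨FreeGroup X, inferInstance, Pool.Agent.U682.FT.freeTop X,
    Pool.Agent.U682.FT.freeTopGroup X, Pool.Agent.U427.FTG.t2, FreeGroup.of, isFree_of⟩,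
    fun F _ _ _ _ i hi => kr_four hX i hi⟩

end Pool.Agent.Results.MP_b47bfe_gt.KRProperty
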